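import Pool.Agent.U951.TR.Idx
import Pool.Agent.U951.TR.Odd

/-!
# Brocard's conjecture: all integers near `s(n)`, `n - φ(n)` and `α n + β f(n)`

Let `s(n)` be the sum of the proper divisors of `n`, let `G` have steps bounded below by a positive constant and order
of growth at most `d ≥ 1`, and `κ ≥ 0`, `0.612 d + κ ≤ e ≤ 1`. We show that for a set of `n` of lower density at least
`1 - e` ALL the integers `k ≥ 1` with `|k - G (s(n))| ≤ s(n) ^ κ` have the following property, and the same holds for
`n - φ(n)` in place of `s(n)`: for every integer `q > k` (in particular if `k < q` are consecutive primes) there are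
at least four primes strictly between `k ^ 2` and `q ^ 2`, there are at least `c (2 k + 1) / log k` primes strictly
between `k ^ 2` and `(k + 1) ^ 2`, and every interval of length `H ≥ k ^ (1 - δ)` between `k ^ 2 - k` and `(k + 1) ^
2` contains at least `c H / log k` primes. For `G g = g` and `κ = 0` this is a statement on `k = s(n)` and `k = n -
φ(n)`, for a set of `n` of lower density at least `0.388`. More precisely the property holds for almost all `n` with a
divisor `≥ n ^ e` which is a prime or the product of two different primes, and for the values `g = α n + β f(n)` of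
multiplicative functions with `f p = p + c` at the primes, uniformly in `|α|, |β| ≤ N ^ δ'` and with a power saving in
the number of the exceptional `n`.

The values `s(n)`, `n - φ(n)` are not multiplicative, and some of them are taken very often, so that bounds for the
number of the exceptional `k ≤ X` do not say anything about them.

Proof. The starting library (`Pool/Agent/Q278/KT`, in the form `Pool/Agent/S821/PowIdx` of helper821) bounds the
number of the exceptional `k ≤ X` by `X ^ (0.612 - δ)`. Let `n = k v p` with large primes `p ≠ v`. Then `g = A v p + B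
(v + p) + B c`, `A = α k + β f(k)`, `B = β c f(k)`, and so `(A v + B) (A p + B) = A g + B² - A B c`: for given `g`,
`k`, `α`, `β` there are only `N^o(1)` possibilities for `p` and `v` (tool `Pool.Agent.U365.POW` of helper365).
-/

set_option autoImplicit false

open Finset Filter

namespace Pool.Agent.Results.MP_739ba1_nt.AliquotValues

open Pool.Agent.S821.PowIdx (RichPow)
open Pool.Agent.U951.TR.Idx (Near)
open Pool.Agent.U365.POW (Values Dens)
open Pool.Agent.N733.TG (Expanding)

/-- For every integer `q > k` there are at least four primes strictly between `k ^ 2` and `q ^ 2`; there are at least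
`c (2 k + 1) / log k` primes strictly between `k ^ 2` and `(k + 1) ^ 2`; and every interval `(a, a + H]` between `k ^ 2 - k` and
`(k + 1) ^ 2` of length `H ≥ k ^ (1 - δ)` contains at least `c H / log k` primes. -/
def Brocard (c δ : ℝ) (k : ℕ) : Prop :=
  (∀ q : ℕ, k < q → 4 ≤ ((Finset.Ioo (k ^ 2) (q ^ 2)).filter Nat.Prime).card) ∧
  c * (2 * k + 1) / Real.log k ≤ (((Finset.Ioo (k ^ 2) ((k + 1) ^ 2)).filter Nat.Prime).card : ℝ) ∧
  ∀ a H : ℕ, k ^ 2 ≤ a + k → a + H ≤ (k + 1) ^ 2 → (k : ℝ) ^ (1 - δ) ≤ H →
    c * H / Real.log k ≤ (((Finset.Ioc a (a + H)).filter Nat.Prime).card : ℝ)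

/-- the constants -/
lemma start (c δ : ℝ) (hc : 0 < c) (hδ : 0 < δ) (_ : δ ≤ 0.0025) : ∃ c' δ' : ℝ, 0 < c' ∧ 0 < δ' ∧
    ∃ k1 : ℕ, ∀ k : ℕ, k1 ≤ k → RichPow c (1 - δ) 2 3 (1 * k) → Brocard c' δ' k := by
  obtain ⟨k1, hk12, hk1⟩ := Pool.Agent.U951.TR.Odd.sq_of_rich hc hδ
  refine ⟨c / 2, δ, by positivity, hδ, k1, fun k hk h => ?_⟩
  obtain ⟨⟨h1, h2⟩, h3⟩ := hk1 k hk h
  have hk2 : (2 : ℝ) ≤ k := by exact_mod_cast hk12.trans hk
  have hlog : 0 < Real.log k := Real.log_pos (by linarith)
  refine ⟨fun q hq => h1.trans (card_le_card fun p hp => ?_), ?_, fun a H g1 g2 g3 => ?_⟩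
  · rw [mem_filter, mem_Ioo] at hp ⊢
    exact ⟨⟨hp.1.1, hp.1.2.trans_le (Nat.pow_le_pow_left hq 2)⟩, hp.2⟩
  · refine le_trans (le_of_eq ?_) h2
    rw [div_mul_eq_mul_div, div_div]
  · refine le_trans ?_ (h3 a H g1 g2 g3)
    have hH : (0 : ℝ) ≤ H := Nat.cast_nonneg _
    rw [div_le_div_iff_of_pos_right hlog]
    nlinarith

/-- **Theorem.** There are `c > 0` and `δ > 0` such that for all `G` with steps bounded below and order at most `d ≥ 1`,
and all `κ ≥ 0` and `e ≤ 1` with `0.612 d + κ ≤ e`, the property `Brocard c δ` of ALL the integers `k ≥ 1` with `|k -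
G g| ≤ g ^ κ` holds for the values `g` of functions similar to the aliquot sum (`Values e`: for `s(n)`, for `n - φ(n)`
and for all `α n + β f(n)`, for almost all the `n` with a divisor `≥ n ^ e` which is a prime or the product of two
different primes), and for both `g = s(n)` and `g = n - φ(n)` for a set of `n` of lower density at least `1 - e`. -/
theorem result :
    ∃ c δ : ℝ, 0 < c ∧ 0 < δ ∧ ∀ (G : ℕ → ℝ) (d : ℝ), Expanding G d → ∀ κ e : ℝ, 0 ≤ κ → 0.612 * d + κ ≤ e → e ≤ 1 →
      Values e (Near (Brocard c δ) G κ) ∧ Dens (1 - e) (Near (Brocard c δ) G κ) := by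
  obtain ⟨c, δ, hc, hδ, hδ1, H⟩ := Pool.Agent.U951.TR.Idx.tools
  obtain ⟨c', δ', hc', hδ', hk⟩ := start c δ hc hδ hδ1
  refine ⟨c', δ', hc', hδ', fun G d hG κ e hκ he he1 => ?_⟩
  exact (H 1 (Brocard c' δ') (by norm_num) hk G d hG κ e hκ he).1 he1

end Pool.Agent.Results.MP_739ba1_nt.AliquotValues
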