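import Pool.Agent.U513.AP.Primes

/-!
# Brocard's conjecture for the primes around the numerators and denominators of Diophantine approximations

Let `α ∈ ℝ ^ d` and consider all its approximations `(k, p_1, …, p_d)` with `|k α_i - γ_i - p_i| ≤ k ^ (-τ)`; for `d = 1`, `γ = 0`,
`τ = 1` these contain the denominators and numerators of all the convergents of the continued fraction of `α`, for `τ = 1 / d` all
the best simultaneous approximations. We show that for all `α` outside of a set of Hausdorff dimension at most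
`(d + 0.612 + w - δ) / (1 + τ)` Brocard's inequality (at least four primes between the squares of the consecutive primes `p ≤ n < q`) is true for ALL the integers `n ≥ 1` at a distance of at most `k ^ w` from
`a k + b_1 p_1 + ⋯ + b_d p_d`, for every integral linear form `(a, b) ≠ 0` and all these approximations with large `k`; moreover
there are at least `c n / log n` primes between these squares. For
`d = 1`, `τ = 1` the dimension is at most `(1.612 + w - δ) / 2 < 1` for `w ≤ 0.388`. The theorem is more general: linear forms are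
replaced by all the integral polynomials `P(k, p)` of degree at most `D` with small level sets, with the dimension
`(d + 1 - l + 0.612 D + w - δ) / (1 + τ)`, for example `k ^ 2 + p_1 ^ 2 + Q(p_2, …)` with `l = D = 2`, so that for `d = 1`, `τ = 1` all the
integers `n` within `k ^ w` of `k ^ 2 + p ^ 2` are covered, with dimension `(1.224 + w - δ) / 2`. All the `α` with approximations of
exponent `τ > 1 / d` form a set of dimension `(d + 1) / (1 + τ)`, so that the theorem is new information also for large `τ`.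

Proof. `Pool/Agent/Q278/KT` of the starting library (prepared for another question) bounds the number of the exceptional `n ≤ X` by
`X ^ (0.612 - δ)` (`S821/PowIdx` of helper821, form of helper766 in `U766/OP/Core`). The integral vectors `(k, p)` with `k ≈ N` and
`P(k, p)` near the exceptional set are counted with the level sets of `P` (`U513/AP/Core`), and the sets of the `α` approximated
by them, cubes of side `2 N ^ (- 1 - τ)`, are used as the covers in the definition of the Hausdorff measure. The numbers `k`, `p` have the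
density zero for a given `α`, so that a bound for the number of exceptional `n` alone does not say anything about them.
-/

set_option autoImplicit false

open Finset Filter MeasureTheory

namespace Pool.Agent.Results.MP_739ba1_nt.Approximations

/-- `p < q` are consecutive primes. -/
def Consecutive (p q : ℕ) : Prop := p.Prime ∧ q.Prime ∧ p < q ∧ ∀ r : ℕ, p < r → r < q → ¬ r.Prime

/-- The number of the primes strictly between `p ^ 2` and `q ^ 2`. -/
noncomputable def N (p q : ℕ) : ℕ := {r : ℕ | r.Prime ∧ p ^ 2 < r ∧ r < q ^ 2}.ncard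

/-- Brocard's inequality `N ≥ 4`, even `N ≥ c n / log n`, is true for the consecutive primes `p ≤ n < q` around `n`, and all the
intervals `(a, a + H]` in `[n ^ 2, (n + 1) ^ 2]` of length `H ≥ n ^ (1 - δ)` contain at least `c H / log n` primes. -/
def Good (c δ : ℝ) (n : ℕ) : Prop :=
  (∀ p q : ℕ, Consecutive p q → p ≤ n → n < q → 4 ≤ N p q ∧ c * n / Real.log n ≤ N p q) ∧
  ∀ a H : ℕ, n ^ 2 ≤ a → a + H ≤ (n + 1) ^ 2 → (n : ℝ) ^ (1 - δ) ≤ H →
    c * H / Real.log n ≤ (((Finset.Ioc a (a + H)).filter Nat.Prime).card : ℝ)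

/-- The level sets of `P` in the boxes `|w_i| ≤ X` have at most `C X ^ (r - l + ε)` elements. -/
def SmallLevels {r : ℕ} (P : MvPolynomial (Fin r) ℤ) (l : ℝ) : Prop :=
  l ≤ r ∧ ∀ ε : ℝ, 0 < ε → ∃ C : ℝ, ∀ X : ℕ, 1 ≤ X → ∀ v : ℤ,
    ({w : Fin r → ℤ | (∀ i, |w i| ≤ X) ∧ MvPolynomial.eval w P = v}.ncard : ℝ) ≤ C * (X : ℝ) ^ (r - l + ε)

/-- the polynomial `x_0 ^ 2 + x_1 ^ 2 + Q(x_2, x_3, …)` -/
noncomputable def squaresPlus {r : ℕ} (Q : MvPolynomial (Fin r) ℤ) : MvPolynomial (Fin (r + 2)) ℤ :=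
  MvPolynomial.X 0 ^ 2 + MvPolynomial.X 1 ^ 2 + MvPolynomial.rename (fun i : Fin r => i.succ.succ) Q

/-- `(k, p)` is an approximation of `α` of exponent `τ` and shift `γ`: `|k α_i - γ_i - p_i| ≤ k ^ (-τ)` for all `i`. -/
def Approx {d : ℕ} (τ : ℝ) (γ α : Fin d → ℝ) (k : ℕ) (p : Fin d → ℤ) : Prop :=
  ∀ i, |(k : ℝ) * α i - γ i - p i| ≤ (k : ℝ) ^ (-τ)

lemma good_of_rich {c δ : ℝ} (hδ : 0 < δ) {n : ℕ} (hn : 2 ≤ n) (hnl : Real.log n ≤ c / 4 * n)
    (h : Pool.Agent.S821.PowIdx.RichPow c (1 - δ) 2 3 (1 * n)) : Good c (δ / 2) n := by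
  rw [one_mul] at h
  have hn2 : (2 : ℝ) ≤ n := by exact_mod_cast hn
  have hn0 : (0 : ℝ) < n := by linarith
  have hlog : 0 < Real.log n := Real.log_pos (by linarith)
  have hw : ∀ a H : ℕ, n ^ 2 ≤ a → a + H ≤ (n + 1) ^ 2 → (n : ℝ) ^ (1 - δ / 2) ≤ H →
      c * H / Real.log n ≤ (((Finset.Ioc a (a + H)).filter Nat.Prime).card : ℝ) := by
    intro a H g1 g2 g3
    have g1' : (n : ℝ) ^ 2 ≤ a := by exact_mod_cast g1
    have g2' : (a : ℝ) + H ≤ ((n : ℝ) + 1) ^ 2 := by exact_mod_cast g2
    have hH : (0 : ℝ) ≤ H := Nat.cast_nonneg _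
    refine h a H ?_ ?_ ((Real.rpow_le_rpow_of_exponent_le (by linarith) (by linarith)).trans g3)
    · rw [Real.rpow_two, show (2 : ℝ) - 1 = 1 by norm_num, Real.rpow_one, abs_le]
      constructor <;> nlinarith
    · rw [Real.rpow_two, show (2 : ℝ) - 1 = 1 by norm_num, Real.rpow_one, abs_le]
      constructor <;> nlinarith
  have hnn : (n : ℝ) ^ (1 - δ / 2) ≤ n := by
    calc (n : ℝ) ^ (1 - δ / 2) ≤ (n : ℝ) ^ (1 : ℝ) := Real.rpow_le_rpow_of_exponent_le (by linarith) (by linarith)
      _ = n := Real.rpow_one _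
  refine ⟨fun p q _ hpn hnq => ?_, hw⟩
  have hN : c * n / Real.log n ≤ N p q := by
    refine (hw (n ^ 2) n le_rfl (by nlinarith) hnn).trans ?_
    unfold N
    rw [← Set.ncard_coe_finset]
    refine Nat.cast_le.2 (Set.ncard_le_ncard ?_ ((Set.finite_Iio (q ^ 2)).subset fun r hr => hr.2.2))
    intro r hr
    rw [mem_coe, mem_filter, mem_Ioc] at hr
    obtain ⟨⟨h7, h8⟩, h9⟩ := hr
    refine ⟨h9, lt_of_le_of_lt (Nat.pow_le_pow_left hpn 2) h7, ?_⟩
    have h10 : (n + 1) ^ 2 ≤ q ^ 2 := Nat.pow_le_pow_left hnq 2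
    nlinarith
  refine ⟨?_, hN⟩
  have h5 : 4 ≤ c * n / Real.log n := by
    rw [le_div_iff₀ hlog]
    linarith
  exact_mod_cast h5.trans hN

/-- **Brocard's inequality around the approximations of almost all points.** There are `c > 0` and `δ > 0` such that for all
`d ≥ 1`, `D ≥ 1`, `τ ≥ 0`, `w ≥ 0`, `l` and all `γ ∈ ℝ ^ d` there is a set `E` of Hausdorff dimension at most
`(d + 1 - l + 0.612 D + w - δ) / (1 + τ)` (of Lebesgue measure zero if `0.612 D + w + 1 ≤ l + d τ`), such that for all `α ∉ E` and all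
integral polynomials `P` in `d + 1` variables of degree at most `D` with `SmallLevels P l`, for all large `k` and all integral vectors
`p` with `|k α_i - γ_i - p_i| ≤ k ^ (-τ)`, ALL the integers `n ≥ 1` with `|n - P(k, p)| ≤ k ^ w` are good: the consecutive primes
`p ≤ n < q` around `n` have at least four primes, even at least `c n / log n` primes, between their squares, and all the intervals
`(a, a + H]` in `[n ^ 2, (n + 1) ^ 2]` of length `H ≥ n ^ (1 - δ)` contain at least `c H / log n` primes. All the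
nonconstant polynomials, such as the linear forms, have `SmallLevels P 1`, and the polynomials
`x_0 ^ 2 + x_1 ^ 2 + Q(x_2, …)` have `SmallLevels P 2`. -/
theorem result :
    (∃ c δ : ℝ, 0 < c ∧ 0 < δ ∧ ∀ (d D : ℕ) (τ w l : ℝ) (γ : Fin d → ℝ), 1 ≤ d → 1 ≤ D → 0 ≤ τ → 0 ≤ w →
      ∃ E : Set (Fin d → ℝ), dimH E ≤ ENNReal.ofReal ((d + 1 - l + 0.612 * D + w - δ) / (1 + τ)) ∧
        (0.612 * D + w + 1 ≤ l + d * τ → volume E = 0) ∧
        ∀ α, α ∉ E → ∀ P : MvPolynomial (Fin (d + 1)) ℤ, P.totalDegree ≤ D → SmallLevels P l →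
          ∀ᶠ k : ℕ in atTop, ∀ p : Fin d → ℤ, Approx τ γ α k p → ∀ n : ℕ, 1 ≤ n →
            |(n : ℝ) - (MvPolynomial.eval (Fin.cons (k : ℤ) p : Fin (d + 1) → ℤ) P : ℤ)| ≤ (k : ℝ) ^ w →
              Good c δ n) ∧
    (∀ (r : ℕ) (P : MvPolynomial (Fin r) ℤ), (∀ c : ℤ, P ≠ MvPolynomial.C c) → SmallLevels P 1) ∧
    ∀ (r : ℕ) (Q : MvPolynomial (Fin r) ℤ), SmallLevels (squaresPlus Q) 2 := by
  refine ⟨?_, fun r P hP => Pool.Agent.U513.AP.lev_one P hP, fun r Q => Pool.Agent.U513.AP.lev_squares Q⟩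
  obtain ⟨c, δ, hc, hδ, hδ1, h⟩ := Pool.Agent.U513.AP.square_law
  obtain ⟨k1, hk1⟩ : ∃ k1 : ℕ, ∀ k : ℕ, k1 ≤ k → Pool.Agent.S821.PowIdx.RichPow c (1 - δ) 2 3 (1 * k) →
      Good c (δ / 2) k := by
    have t2 : ∀ᶠ n : ℕ in atTop, Real.log n ≤ c / 4 * n := by
      have h2 := tendsto_natCast_atTop_atTop (R := ℝ) |>.eventually
        (Real.isLittleO_log_id_atTop.bound (show (0 : ℝ) < c / 4 by positivity))
      filter_upwards [h2] with n hn
      have h3 := (le_abs_self (Real.log n)).trans hn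
      simpa using h3
    obtain ⟨k1, hk1⟩ := eventually_atTop.1 ((eventually_ge_atTop 2).and t2)
    exact ⟨k1, fun k hk hR => good_of_rich hδ (hk1 k hk).1 (hk1 k hk).2 hR⟩
  refine ⟨c, δ / 2, by positivity, by positivity, fun d D τ w l γ hd hD hτ hw => ?_⟩
  obtain ⟨E, h1, h2, h3⟩ := h (Good (c) (δ / 2)) 1 k1 le_rfl hk1 d D τ w l γ hd hD hτ hw
  exact ⟨E, h1, h2, h3⟩

end Pool.Agent.Results.MP_739ba1_nt.Approximations
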