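import Mathlib
import Pool.Agent.U766.OP.Broc
import Pool.Agent.Q278.KT.Fin
import Pool.Agent.Results.MP_028722_nt.RecordOrderPatterns

/-!
# MP_739ba1_nt (Brocard): the order of magnitude and the order patterns of the numbers of primes between the squares of
consecutive primes

Let `N` be the number of primes between the squares of two consecutive primes `p < p'`. Brocard's conjecture says
`N ≥ 4` for `p > 2`; the expected order of magnitude is `p (p' - p) / log p`. We prove:

1. this order of magnitude is an upper bound for all `p`, and a lower bound for all `p ≤ X` with the exception of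
   `X ^ 0.612` at most;
2. the values of `N` at `k` consecutive primes are, at least `X ^ (7/8) / 2` times in `(X, 4X]`, ordered in many
   prescribed ways, and by arbitrarily large factors, at every scale from `X` (the average of `N`) up to
   `X` times the record size of prime gaps divided by the logarithm; for example all orders of three
   consecutive values and all patterns of rises and falls of four consecutive values occur.

Method.  Part 1 is the counting theorem of the starting library for intervals of length `x ^ (1/2 - η)` with few primes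
(`Pool.Agent.Q278.KT.mainp_half`), in a form for the intervals between squares (`Pool.Agent.U766.OP`), and an upper bound
sieve (`Pool.Agent.X58.IV.primes_up`).  Part 2 transfers the order patterns of the gaps between consecutive primes
(starting hand-in `MP_028722_nt.RecordOrderPatterns`) to the values of `N`: the exceptions of part 1 are much fewer than the
occurrences.
-/

set_option autoImplicit false

namespace Pool.Agent.Results.MP_739ba1_nt.OrderPatternsOfCounts

open Finset Filter

/-- The record scale `f(X) = log X (log₂ X)² log₄ X / (log₃ X)²` (iterated natural logarithms). -/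
noncomputable def f (X : ℝ) : ℝ :=
  Real.log X * (Real.log (Real.log X)) ^ 2 * Real.log (Real.log (Real.log (Real.log X))) /
    (Real.log (Real.log (Real.log X))) ^ 2

/-- The `i`-th prime, numbered from `p 0 = 2`. -/
noncomputable def p (i : ℕ) : ℕ := Nat.nth Nat.Prime i

/-- The number of the primes strictly between `p i ^ 2` and `p (i + 1) ^ 2`. (This is `N(i + 1)` of the problem, which
numbers the primes from `1`.) -/
noncomputable def N (i : ℕ) : ℕ := ((Ioo (p i ^ 2) (p (i + 1) ^ 2)).filter Nat.Prime).card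

/-- The expected order of magnitude of `N i`: `p i (p (i + 1) - p i) / log (p i)`. -/
noncomputable def M (i : ℕ) : ℝ := p i * ((p (i + 1) : ℝ) - p i) / Real.log (p i)

/-- The `k` values of `N` at `n, …, n + k - 1` are between `c X H / log X` and `X H / (c log X)` and compatible with the
relation `lt` with the factor `A`; the `k + 1` primes `p n, …, p (n + k)` lie in `(X, 4X]`, in an interval of length `H` and
in the class of `a` modulo `q`. -/
def Block {k : ℕ} (lt : Fin k → Fin k → Prop) (A c H X : ℝ) (q a n : ℕ) : Prop :=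
  X < (p n : ℝ) ∧ (p (n + k) : ℝ) ≤ 4 * X ∧ (p (n + k) : ℝ) ≤ (p n : ℝ) + H ∧
  (∀ i : Fin (k + 1), p (n + i) ≡ a [MOD q]) ∧
  (∀ i : Fin k, c * (X * H / Real.log X) ≤ N (n + i) ∧ c * N (n + i) ≤ X * H / Real.log X) ∧
  ∀ i j : Fin k, lt i j → A * N (n + i) ≤ N (n + j)

/-- For every `A` there is `c > 0` such that for all squarefree `q`, all `a` prime to `q` and all
large `X`: for every `H` with `log X ≤ H ≤ c f(X)` there are at least `X^(7/8) / 2` such blocks. -/
def Occurs {k : ℕ} (lt : Fin k → Fin k → Prop) : Prop :=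
  ∀ A : ℝ, ∃ c : ℝ, 0 < c ∧ ∀ q a : ℕ, Squarefree q → a.Coprime q → ∃ X₀ : ℝ, ∀ X : ℝ, X₀ ≤ X →
    ∀ H : ℝ, Real.log X ≤ H → H ≤ c * f X →
      X ^ (7 / 8 : ℝ) / 2 ≤ ({n : ℕ | Block lt A c H X q a n}.ncard : ℝ)

/-- Six orderings of `k` values: the value number `i < k` has the rank `o i` among the `k` values.
In words, with ranks counted from `1`: `1, …, k`; `1, …, k-2, k, k-1`; `k-2, …, 1, k, k-1`;
`2, …, k, 1`; `k-1, …, 1, k`; `1, k, 2, …, k-1`. -/
def orders (k : ℕ) : List (ℕ → ℕ) :=
  [fun i => i,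
   fun i => if i + 2 < k then i else 2 * k - 3 - i,
   fun i => if i + 2 < k then k - 3 - i else 2 * k - 3 - i,
   fun i => if i + 1 < k then i + 1 else 0,
   fun i => if i + 1 < k then k - 2 - i else k - 1,
   fun i => if i = 0 then 0 else if i = 1 then k - 1 else i - 1]

open Pool.Agent.U766.OP in
/-- the values of `N` are ordered as the gaps, outside of the exceptional set -/
theorem transfer {k : ℕ} (lt : Fin k → Fin k → Prop)
    (hR : Pool.Agent.Results.MP_028722_nt.RecordOrderPatterns.Occurs lt) {C c₁ : ℝ} (hC : 0 < C) (hc₁ : 0 < c₁)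
    (hup : ∀ i : ℕ, (NB i : ℝ) ≤ C * (pr i * gp i / Real.log (pr i)))
    (hfew : ∀ K : ℝ, 1 ≤ K → ∃ X0 : ℝ, ∀ X : ℝ, X0 ≤ X →
      {i : ℕ | (pr i : ℝ) ≤ X ∧ (NB i : ℝ) < c₁ * (pr i * gp i / Real.log (pr i))}.Finite ∧
      K * (({i : ℕ | (pr i : ℝ) ≤ X ∧ (NB i : ℝ) < c₁ * (pr i * gp i / Real.log (pr i))}.ncard : ℕ) : ℝ) ≤
        X ^ (0.612 : ℝ)) : Occurs lt := by
  classical
  intro A
  set A₁ : ℝ := max A 1 with hA₁
  have hA1 : 1 ≤ A₁ := le_max_right _ _
  have hAA : A ≤ A₁ := le_max_left _ _
  obtain ⟨c', hc', hmain⟩ := hR (16 * A₁ * C / c₁)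
  set c : ℝ := min c' (min (c₁ * c' / 2) (1 / (4 * C))) with hc
  have hcc' : c ≤ c' := min_le_left _ _
  have hc2 : c ≤ c₁ * c' / 2 := (min_le_right _ _).trans (min_le_left _ _)
  have hc3 : c ≤ 1 / (4 * C) := (min_le_right _ _).trans (min_le_right _ _)
  have hc0 : 0 < c := lt_min hc' (lt_min (by positivity) (by positivity))
  refine ⟨c, hc0, fun q a hq ha => ?_⟩
  obtain ⟨X₀, hX₀⟩ := hmain q a hq ha
  obtain ⟨X₁, hX₁⟩ := hfew (8 * (k + 1)) (by
    have : (0 : ℝ) ≤ k := Nat.cast_nonneg k
    linarith)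
  refine ⟨max X₀ (max X₁ 4), fun X hX H hH1 hH2 => ?_⟩
  have hXX₀ : X₀ ≤ X := (le_max_left _ _).trans hX
  have hXX₁ : X₁ ≤ X := ((le_max_left _ _).trans (le_max_right _ _)).trans hX
  have hX4 : 4 ≤ X := ((le_max_right _ _).trans (le_max_right _ _)).trans hX
  have hlX : 0 < Real.log X := Real.log_pos (by linarith)
  have hH0 : 0 < H := by linarith
  have hf0 : 0 < f X := by
    have : 0 < c * f X := by linarith
    exact (pos_iff_pos_of_mul_pos this).1 hc0
  have h1 := hX₀ X hXX₀ H hH1 (hH2.trans (mul_le_mul_of_nonneg_right hcc' hf0.le))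
  set S1 := {n : ℕ | Pool.Agent.Results.MP_028722_nt.RecordOrderPatterns.Block lt (16 * A₁ * C / c₁) c' H X q a n}
    with hS1
  obtain ⟨hEfin, hEc⟩ := hX₁ (4 * X) (by linarith)
  set E := {i : ℕ | (pr i : ℝ) ≤ 4 * X ∧ (NB i : ℝ) < c₁ * (pr i * gp i / Real.log (pr i))} with hE
  have hS1fin : S1.Finite := by
    refine (Set.finite_Iic ⌊4 * X⌋₊).subset ?_
    intro n hn
    rw [Set.mem_Iic]
    refine Nat.le_floor (le_trans ?_ hn.2.1)
    have h2 : n + k ≤ pr (n + k) := self_le_pr _
    exact_mod_cast (Nat.le_add_right n k).trans h2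
  -- the blocks without exceptional index
  set F1 := hS1fin.toFinset with hF1
  set FE := hEfin.toFinset with hFE
  set F2 := F1.filter (fun n => ∀ i < k, n + i ∉ FE) with hF2
  have hcov : F1 ⊆ F2 ∪ (range k).biUnion (fun i => F1.filter (fun n => n + i ∈ FE)) := by
    intro n hn
    rw [mem_union, mem_biUnion]
    by_cases h2 : ∀ i < k, n + i ∉ FE
    · exact Or.inl (mem_filter.2 ⟨hn, h2⟩)
    · push Not at h2
      obtain ⟨i, hi, h3⟩ := h2
      exact Or.inr ⟨i, mem_range.2 hi, mem_filter.2 ⟨hn, h3⟩⟩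
  have hcard : (F1.card : ℝ) ≤ F2.card + k * FE.card := by
    have h2 : F1.card ≤ F2.card + k * FE.card := by
      refine (card_le_card hcov).trans ((card_union_le _ _).trans ?_)
      apply Nat.add_le_add_left
      calc ((range k).biUnion (fun i => F1.filter (fun n => n + i ∈ FE))).card
          ≤ (range k).card * FE.card := by
            apply card_biUnion_le_card_mul
            intro i _
            apply card_le_card_of_injOn (fun n => n + i)
            · intro n hn
              exact (mem_filter.1 (Finset.mem_coe.1 hn)).2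
            · intro n _ m _ h
              simp only at h
              omega
        _ = k * FE.card := by rw [card_range]
    exact_mod_cast h2
  have hF1c : (F1.card : ℝ) = S1.ncard := by rw [hF1, ← Set.ncard_eq_toFinset_card S1 hS1fin]
  have hFEc : (FE.card : ℝ) = E.ncard := by rw [hFE, ← Set.ncard_eq_toFinset_card E hEfin]
  have hEbound : (k : ℝ) * FE.card ≤ X ^ (7 / 8 : ℝ) / 2 := by
    rw [hFEc]
    have h2 : (4 * X) ^ (0.612 : ℝ) ≤ 4 * X ^ (7 / 8 : ℝ) := by
      rw [Real.mul_rpow (by norm_num) (by linarith)]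
      have e1 : (4 : ℝ) ^ (0.612 : ℝ) ≤ 4 := by
        calc (4 : ℝ) ^ (0.612 : ℝ) ≤ 4 ^ (1 : ℝ) := Real.rpow_le_rpow_of_exponent_le (by norm_num) (by norm_num)
          _ = 4 := Real.rpow_one 4
      have e2 : X ^ (0.612 : ℝ) ≤ X ^ (7 / 8 : ℝ) := Real.rpow_le_rpow_of_exponent_le (by linarith) (by norm_num)
      gcongr
    have h3 : (0 : ℝ) ≤ E.ncard := Nat.cast_nonneg _
    have h4 : (8 * ((k : ℝ) + 1)) * E.ncard ≤ 4 * X ^ (7 / 8 : ℝ) := hEc.trans h2
    nlinarith
  have hF2c : X ^ (7 / 8 : ℝ) / 2 ≤ (F2.card : ℝ) := by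
    rw [hF1c] at hcard
    linarith
  refine hF2c.trans ?_
  have hfin2 : {n : ℕ | Block lt A c H X q a n}.Finite := by
    refine (Set.finite_Iic ⌊4 * X⌋₊).subset ?_
    intro n hn
    rw [Set.mem_Iic]
    refine Nat.le_floor (le_trans ?_ hn.2.1)
    have h2 : n + k ≤ pr (n + k) := self_le_pr _
    exact_mod_cast (Nat.le_add_right n k).trans h2
  rw [Nat.cast_le, ← Set.ncard_coe_finset]
  refine Set.ncard_le_ncard ?_ hfin2
  intro n hn
  rw [Finset.mem_coe, hF2, mem_filter, hF1, Set.Finite.mem_toFinset] at hn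
  obtain ⟨⟨b1, b2, b3, b4, b5, b6⟩, hnE⟩ := hn
  -- facts on the values
  have hfacts : ∀ i : ℕ, i < k → X < (pr (n + i) : ℝ) ∧ (pr (n + i) : ℝ) ≤ 4 * X ∧ c' * H ≤ gp (n + i) ∧
      gp (n + i) ≤ H ∧ c₁ * (pr (n + i) * gp (n + i) / Real.log (pr (n + i))) ≤ (NB (n + i) : ℝ) := by
    intro i hi
    have e1 : pr n ≤ pr (n + i) := pr_mono.monotone (by omega)
    have e2 : pr (n + i) ≤ pr (n + k) := pr_mono.monotone (by omega)
    have e3 : pr (n + i + 1) ≤ pr (n + k) := pr_mono.monotone (by omega)
    have e1' : (pr n : ℝ) ≤ pr (n + i) := by exact_mod_cast e1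
    have e2' : (pr (n + i) : ℝ) ≤ pr (n + k) := by exact_mod_cast e2
    have e3' : (pr (n + i + 1) : ℝ) ≤ pr (n + k) := by exact_mod_cast e3
    have g1 : X < (pr n : ℝ) := b1
    have g2 : (pr (n + k) : ℝ) ≤ 4 * X := b2
    have g3 : (pr (n + k) : ℝ) ≤ (pr n : ℝ) + H := b3
    refine ⟨by linarith, by linarith, b5 ⟨i, hi⟩, ?_, ?_⟩
    · unfold gp
      linarith
    · by_contra hcon
      rw [not_le] at hcon
      apply hnE i hi
      rw [hFE, Set.Finite.mem_toFinset]
      exact ⟨by linarith, hcon⟩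
  refine ⟨b1, b2, b3, b4, fun i => ?_, fun i j hij => ?_⟩
  · obtain ⟨e1, e2, e3, e4, e5⟩ := hfacts i i.2
    have hlp : Real.log X ≤ Real.log (pr (n + i)) := Real.log_le_log (by linarith) e1.le
    have hlp2 : Real.log (pr (n + i)) ≤ 2 * Real.log X := by
      have h2 : Real.log (pr (n + i)) ≤ Real.log (X * X) := by
        apply Real.log_le_log (by linarith)
        nlinarith
      rw [Real.log_mul (by linarith) (by linarith)] at h2
      linarith
    have hlp0 : 0 < Real.log (pr (n + i)) := by linarith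
    have hg0 : 0 ≤ gp (n + i) := by linarith [one_le_gp (n + i)]
    have hpp0 : (0 : ℝ) ≤ pr (n + i) := Nat.cast_nonneg _
    constructor
    · refine le_trans ?_ e5
      calc c * (X * H / Real.log X) ≤ c₁ * c' / 2 * (X * H / Real.log X) := by gcongr
        _ = c₁ * (X * (c' * H) / (2 * Real.log X)) := by field_simp
        _ ≤ c₁ * (pr (n + i) * gp (n + i) / Real.log (pr (n + i))) := by
            apply mul_le_mul_of_nonneg_left _ hc₁.le
            exact div_le_div₀ (mul_nonneg hpp0 hg0) (mul_le_mul e1.le e3 (by positivity) hpp0) hlp0 hlp2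
    · have h2 : (NB (n + i) : ℝ) ≤ C * (4 * X * H / Real.log X) := by
        refine (hup (n + i)).trans ?_
        apply mul_le_mul_of_nonneg_left _ hC.le
        exact div_le_div₀ (by positivity) (mul_le_mul e2 e4 hg0 (by positivity)) hlX hlp
      have h3 : 0 ≤ 4 * X * H / Real.log X := by positivity
      calc c * (N (n + i) : ℝ) ≤ 1 / (4 * C) * (C * (4 * X * H / Real.log X)) := by
            apply mul_le_mul hc3 h2 (Nat.cast_nonneg _) (by positivity)
        _ = X * H / Real.log X := by field_simp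
  · obtain ⟨e1, e2, e3, e4, e5⟩ := hfacts i i.2
    obtain ⟨k1, k2, k3, k4, k5⟩ := hfacts j j.2
    have hd : 16 * A₁ * C / c₁ * gp (n + i) ≤ gp (n + j) := b6 i j hij
    have hlp : Real.log X ≤ Real.log (pr (n + i)) := Real.log_le_log (by linarith) e1.le
    have hlq : Real.log X ≤ Real.log (pr (n + j)) := Real.log_le_log (by linarith) k1.le
    have hlq2 : Real.log (pr (n + j)) ≤ 2 * Real.log X := by
      have h2 : Real.log (pr (n + j)) ≤ Real.log (X * X) := by
        apply Real.log_le_log (by linarith)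
        nlinarith
      rw [Real.log_mul (by linarith) (by linarith)] at h2
      linarith
    have hlp0 : 0 < Real.log (pr (n + i)) := by linarith
    have hlq0 : 0 < Real.log (pr (n + j)) := by linarith
    have hgi : 0 ≤ gp (n + i) := by linarith [one_le_gp (n + i)]
    have hXH : (pr (n + i) : ℝ) * gp (n + i) / Real.log (pr (n + i)) ≤
        8 * (pr (n + j) * gp (n + i) / Real.log (pr (n + j))) := by
      rw [← mul_div_assoc, div_le_div_iff₀ hlp0 hlq0]
      have h2 : (pr (n + i) : ℝ) ≤ 4 * pr (n + j) := by linarith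
      calc (pr (n + i) : ℝ) * gp (n + i) * Real.log (pr (n + j))
          ≤ (4 * pr (n + j)) * gp (n + i) * (2 * Real.log (pr (n + i))) := by
            gcongr
            linarith
        _ = 8 * (pr (n + j) * gp (n + i)) * Real.log (pr (n + i)) := by ring
    have hN0 : (0 : ℝ) ≤ NB (n + i) := Nat.cast_nonneg _
    have hT0 : 0 ≤ (pr (n + j) : ℝ) * gp (n + i) / Real.log (pr (n + j)) := by positivity
    show A * (NB (n + i) : ℝ) ≤ (NB (n + j) : ℝ)
    calc A * (NB (n + i) : ℝ) ≤ A₁ * (NB (n + i) : ℝ) := mul_le_mul_of_nonneg_right hAA hN0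
      _ ≤ A₁ * (C * (8 * (pr (n + j) * gp (n + i) / Real.log (pr (n + j))))) := by
          apply mul_le_mul_of_nonneg_left _ (by linarith)
          exact (hup (n + i)).trans (mul_le_mul_of_nonneg_left hXH hC.le)
      _ ≤ c₁ * (pr (n + j) * (16 * A₁ * C / c₁ * gp (n + i)) / Real.log (pr (n + j))) := by
          have e : c₁ * ((pr (n + j) : ℝ) * (16 * A₁ * C / c₁ * gp (n + i)) / Real.log (pr (n + j))) =
              16 * A₁ * C * (pr (n + j) * gp (n + i) / Real.log (pr (n + j))) := by
            field_simp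
          rw [e]
          have : A₁ * (C * (8 * ((pr (n + j) : ℝ) * gp (n + i) / Real.log (pr (n + j))))) =
              8 * A₁ * C * (pr (n + j) * gp (n + i) / Real.log (pr (n + j))) := by ring
          rw [this]
          apply mul_le_mul_of_nonneg_right _ hT0
          have : 0 ≤ A₁ * C := by positivity
          linarith
      _ ≤ c₁ * (pr (n + j) * gp (n + j) / Real.log (pr (n + j))) := by gcongr
      _ ≤ (NB (n + j) : ℝ) := k5

/-- **The order of magnitude and the order patterns of Brocard's numbers `N`.**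

(1) There are `C, c > 0` such that `N i ≤ C M i` for all `i`, where `M i = p i (p (i + 1) - p i) / log (p i)`, and
`N i ≥ c M i` for all the `i` with `p i ≤ X` with the exception of at most `X ^ 0.612`, for all large `X`.

(2) For every `k ≥ 3` the six orderings `orders k` of `k` consecutive values of `N`, and their reversals, occur (see
`Occurs`); every ordering of three consecutive values of `N` occurs, and every pattern of rises
(`ε l = true`) and falls (`ε l = false`) of four consecutive values of `N` occurs. -/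
theorem result :
    (∃ C c : ℝ, 0 < C ∧ 0 < c ∧ (∀ i : ℕ, (N i : ℝ) ≤ C * M i) ∧
      ∃ X₀ : ℝ, ∀ X : ℝ, X₀ ≤ X →
        (({i : ℕ | (p i : ℝ) ≤ X ∧ (N i : ℝ) < c * M i}.ncard : ℕ) : ℝ) ≤ X ^ (0.612 : ℝ)) ∧
    (∀ k : ℕ, 3 ≤ k → ∀ o ∈ orders k, Occurs (fun i j : Fin k => o i < o j) ∧
      Occurs (fun i j : Fin k => o (k - 1 - i) < o (k - 1 - j))) ∧
    (∀ σ : Equiv.Perm (Fin 3), Occurs (fun i j : Fin 3 => σ i < σ j)) ∧
    (∀ ε : Fin 3 → Bool, Occurs (fun i j : Fin 4 => ∃ l : Fin 3,
      (ε l = true ∧ i = l.castSucc ∧ j = l.succ) ∨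
        (ε l = false ∧ i = l.succ ∧ j = l.castSucc))) := by
  obtain ⟨C, hC, hup⟩ := Pool.Agent.U766.OP.NB_up
  obtain ⟨c, δ, hc, hδ, hδ1, hfew⟩ := Pool.Agent.U766.OP.few Pool.Agent.Q278.KT.mainp_half
  have hfew2 := Pool.Agent.U766.OP.NB_few hc hδ hfew
  have hT : ∀ {k : ℕ} (lt : Fin k → Fin k → Prop),
      Pool.Agent.Results.MP_028722_nt.RecordOrderPatterns.Occurs lt → Occurs lt :=
    fun lt hR => transfer lt hR hC (by positivity) hup hfew2
  obtain ⟨r1, r2, r3⟩ := Pool.Agent.Results.MP_028722_nt.RecordOrderPatterns.result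
  refine ⟨⟨C, c / 2, hC, by positivity, hup, ?_⟩, ?_, fun σ => hT _ (r2 σ), fun ε => hT _ (r3 ε)⟩
  · obtain ⟨X0, hX0⟩ := hfew2 1 le_rfl
    refine ⟨X0, fun X hX => ?_⟩
    have h1 := (hX0 X hX).2
    rw [one_mul] at h1
    exact h1
  · intro k hk o ho
    obtain ⟨h1, h2⟩ := r1 k hk o ho
    exact ⟨hT _ h1, hT _ h2⟩

end Pool.Agent.Results.MP_739ba1_nt.OrderPatternsOfCounts
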