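import Pool.Agent.U951.TR.Idx
import Pool.Agent.U951.TR.Odd

/-!
# Brocard's conjecture: all integers near a value of `f` at thin sets of arguments

Let `f` be a positive multiplicative function of at most polynomial growth which for each `a ≥ 1` is injective at the
powers `p ^ a` of the large primes and at most `M p ^ a` there; for example Euler's function or the sum of the
divisors. Let `G` have steps bounded below by a positive constant and order of growth at most `d ≥ 1`, and let `κ ≥
0`, `0.612 d + κ ≤ e`. ALL the integers `k ≥ 1` with `|k - G (f v)| ≤ (f v) ^ κ` have the following property, for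
almost all `v` (with a saving of any power of the logarithm) in each of the sets below: for every integer `q > k` (in
particular if `k < q` are consecutive primes) there are at least four primes strictly between `k ^ 2` and `q ^ 2`,
there are at least `c (2 k + 1) / log k` primes strictly between `k ^ 2` and `(k + 1) ^ 2`, and every interval of
length `H ≥ k ^ (1 - δ)` between `k ^ 2 - k` and `(k + 1) ^ 2` contains at least `c H / log k` primes. The sets are:

* the values of any integer polynomial without repeated roots, of degree `r` with `r e < 1`;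

* the shifted primes `p + a`, `a` any integer, if `e < 1`;

* the intervals `(x, x + y]`, `x^τ ≤ y ≤ x`, for every `τ > e`, `τ ≤ 1`.

Proof. The starting library (`Pool/Agent/Q278/KT`, in the form `Pool/Agent/S821/PowIdx` of helper821) bounds the
number of the exceptional `k ≤ X` by `X ^ (0.612 - δ)`. The tool `Pool.Agent.U405.RS` of helper405 (weighted Rankin
method) shows that the values of `f` at almost all elements of these sets avoid every set with a power saving. The
numbers `f v` are in a set of density zero and are taken with large multiplicities, so that a bound for the number of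
exceptional `k` alone says nothing.
-/

set_option autoImplicit false

open Finset Filter

namespace Pool.Agent.Results.MP_739ba1_nt.SparseArguments

open Pool.Agent.S821.PowIdx (RichPow)
open Pool.Agent.U951.TR.Idx (Near)
open Pool.Agent.U405.RS (PM Sparse examples)
open Pool.Agent.N733.TG (Expanding expanding_pow)

/-- For every integer `q > k` there are at least four primes strictly between `k ^ 2` and `q ^ 2`; there are at least
`c (2 k + 1) / log k` primes strictly between `k ^ 2` and `(k + 1) ^ 2`; and every interval `(a, a + H]` between `k ^ 2 - k` and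
`(k + 1) ^ 2` of length `H ≥ k ^ (1 - δ)` contains at least `c H / log k` primes. -/
def Brocard (c δ : ℝ) (k : ℕ) : Prop :=
  (∀ q : ℕ, k < q → 4 ≤ ((Finset.Ioo (k ^ 2) (q ^ 2)).filter Nat.Prime).card) ∧
  c * (2 * k + 1) / Real.log k ≤ (((Finset.Ioo (k ^ 2) ((k + 1) ^ 2)).filter Nat.Prime).card : ℝ) ∧
  ∀ a H : ℕ, k ^ 2 ≤ a + k → a + H ≤ (k + 1) ^ 2 → (k : ℝ) ^ (1 - δ) ≤ H →
    c * H / Real.log k ≤ (((Finset.Ioc a (a + H)).filter Nat.Prime).card : ℝ)

/-- the constants -/
lemma start (c δ : ℝ) (hc : 0 < c) (hδ : 0 < δ) (_ : δ ≤ 0.0025) : ∃ c' δ' : ℝ, 0 < c' ∧ 0 < δ' ∧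
    ∃ k1 : ℕ, ∀ k : ℕ, k1 ≤ k → RichPow c (1 - δ) 2 3 (1 * k) → Brocard c' δ' k := by
  obtain ⟨k1, hk12, hk1⟩ := Pool.Agent.U951.TR.Odd.sq_of_rich hc hδ
  refine ⟨c / 2, δ, by positivity, hδ, k1, fun k hk h => ?_⟩
  obtain ⟨⟨h1, h2⟩, h3⟩ := hk1 k hk h
  have hk2 : (2 : ℝ) ≤ k := by exact_mod_cast hk12.trans hk
  have hlog : 0 < Real.log k := Real.log_pos (by linarith)
  refine ⟨fun q hq => h1.trans (card_le_card fun p hp => ?_), ?_, fun a H g1 g2 g3 => ?_⟩
  · rw [mem_filter, mem_Ioo] at hp ⊢
    exact ⟨⟨hp.1.1, hp.1.2.trans_le (Nat.pow_le_pow_left hq 2)⟩, hp.2⟩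
  · refine le_trans (le_of_eq ?_) h2
    rw [div_mul_eq_mul_div, div_div]
  · refine le_trans ?_ (h3 a H g1 g2 g3)
    have hH : (0 : ℝ) ≤ H := Nat.cast_nonneg _
    rw [div_le_div_iff_of_pos_right hlog]
    nlinarith

/-- **Theorem.** There are `c > 0` and `δ > 0` such that for all `f` of the class `PM`, all `G` with steps bounded below
and order at most `d ≥ 1`, all `κ ≥ 0` and `e` with `0.612 d + κ ≤ e` and every `U` the property `Brocard c δ` of ALL
the integers `k ≥ 1` with `|k - G (f v)| ≤ (f v) ^ κ` holds in the sense `Sparse e f`: with a saving of `(log x)^U`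
for almost all `v` among the positive values of every integer polynomial without repeated roots of degree `r`, `r e <
1`; among the shifted primes `p + a`, if `e < 1`; and in all intervals `(x, x + y]`, `x^τ ≤ y ≤ x`, `e < τ ≤ 1`.
Euler's function, the sum of the divisors and the identity are in the class, and `α v^d` with `α > 0`, `d ≥ 1` is an
example of `G`. -/
theorem result :
    (∃ c δ : ℝ, 0 < c ∧ 0 < δ ∧ ∀ f : ℕ → ℕ, PM f → ∀ (G : ℕ → ℝ) (d : ℝ), Expanding G d →
        ∀ κ e : ℝ, 0 ≤ κ → 0.612 * d + κ ≤ e → ∀ U : ℕ, Sparse e f (Near (Brocard c δ) G κ) U) ∧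
    (PM Nat.totient ∧ PM (fun m => ∑ d ∈ m.divisors, d) ∧ PM (fun m => m)) ∧
    ∀ α d : ℝ, 0 < α → 1 ≤ d → Expanding (fun v => α * (v : ℝ) ^ d) d := by
  refine ⟨?_, examples, fun α d hα hd => expanding_pow hα hd⟩
  obtain ⟨c, δ, hc, hδ, hδ1, H⟩ := Pool.Agent.U951.TR.Idx.tools
  obtain ⟨c', δ', hc', hδ', hk⟩ := start c δ hc hδ hδ1
  refine ⟨c', δ', hc', hδ', fun f hf G d hG κ e hκ he U => ?_⟩
  exact (H 1 (Brocard c' δ') (by norm_num) hk G d hG κ e hκ he).2.1 f hf U

end Pool.Agent.Results.MP_739ba1_nt.SparseArguments
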